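import Mathlib

namespace Pool.Agent.H137Z.T3

/-- The 3-graph `G` on `n` points contains an induced copy of the 3-graph `F` on `k` points:
there is an injection of the points of `F` under which a triple is an edge of `F` exactly when its
image is an edge of `G`. -/
def HasInduced {k n : ℕ} (F : Finset (Finset (Fin k))) (G : Finset (Finset (Fin n))) : Prop :=
  ∃ f : Fin k ↪ Fin n, ∀ t : Finset (Fin k), t.card = 3 → (t ∈ F ↔ t.map f ∈ G)

end Pool.Agent.H137Z.T3
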