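import Pool.Agent.H137Z.T3.Core
import Pool.Agent.H137Z.T3.Defs

set_option autoImplicit false
set_option maxRecDepth 100000
open Finset

namespace Pool.Agent.H137Z.T3

open Pool.Agent.H122R2.N6

theorem sorted_triple : ∀ t : Finset (Fin 6), t.card = 3 →
    ∃ i j k : Fin 6, i < j ∧ j < k ∧ t = {i, j, k} := by decide +kernel

/-- `NoInd` from the absence of an induced copy, for 3-graphs covering all pairs -/
theorem noInd_of_ind {n : ℕ} (F : Finset (Finset (Fin 6))) (c : ℕ)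
    (hFc : ∀ i j k : Fin 6, i < j → j < k → bitc c i j k = if {i, j, k} ∈ F then 1 else 0)
    (hcov : ∀ i j : Fin 6, i ≠ j → ∃ k, ({i, j, k} : Finset (Fin 6)).card = 3 ∧ {i, j, k} ∈ F)
    (H : Finset (Finset (Fin n))) (hH : ∀ e ∈ H, e.card = 3) (h : ¬ HasInduced F H) :
    NoInd (tri H) c := by
  intro x hx
  have key : ∀ t : Finset (Fin 6), t.card = 3 → (t ∈ F ↔ t.image x ∈ H) := by
    intro t ht
    obtain ⟨i, j, k, hij, hjk, rfl⟩ := sorted_triple t ht
    have h1 := hx i j k hij hjk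
    rw [hFc i j k hij hjk] at h1
    unfold tri at h1
    have e : ({i, j, k} : Finset (Fin 6)).image x = {x i, x j, x k} := by
      simp [image_insert]
    rw [e]
    have e2 : ∀ (I1 I2 : DecidableEq (Fin n)), @insert _ _ (@Finset.instInsert _ I1) (x i)
        (@insert _ _ (@Finset.instInsert _ I1) (x j) ({x k} : Finset (Fin n))) =
        @insert _ _ (@Finset.instInsert _ I2) (x i)
        (@insert _ _ (@Finset.instInsert _ I2) (x j) ({x k} : Finset (Fin n))) := by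
      intro I1 I2; rw [Subsingleton.elim I1 I2]
    rw [e2 _ (instDecidableEqFin n)] at h1
    split_ifs at h1 with p q q
    · exact ⟨fun _ => p, fun _ => q⟩
    · exact ⟨fun r => absurd r q, fun r => absurd r p⟩
  have hinj : Function.Injective x := by
    intro i j hij
    by_contra hne
    obtain ⟨k, hk, hm⟩ := hcov i j hne
    have h1 := hH _ ((key _ hk).1 hm)
    have e : ({i, j, k} : Finset (Fin 6)).image x = {x j, x k} := by
      simp [image_insert, hij]
    rw [e] at h1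
    have := Finset.card_le_two (a := x j) (b := x k)
    omega
  refine h ⟨⟨x, hinj⟩, fun t ht => ?_⟩
  rw [key t ht, Finset.map_eq_image]
  rfl

theorem ind_compl {k n : ℕ} (F F' : Finset (Finset (Fin k)))
    (hF : ∀ t : Finset (Fin k), t.card = 3 → (t ∈ F' ↔ t ∉ F))
    (G : Finset (Finset (Fin n))) (h : HasInduced F' (univ.powersetCard 3 \ G)) :
    HasInduced F G := by
  obtain ⟨f, hf⟩ := h
  refine ⟨f, fun t ht => ?_⟩
  have h1 := hf t ht
  rw [hF t ht, mem_sdiff, mem_powersetCard, card_map] at h1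
  constructor
  · intro h2
    by_contra h3
    exact h1.2 ⟨⟨subset_univ _, ht⟩, h3⟩ h2
  · intro h2
    by_contra h3
    exact (h1.1 h3).2 h2

theorem choose_three (n : ℕ) :
    ((n.choose 3 : ℕ) : ℝ) = (n : ℝ) ^ 3 / 6 - (n : ℝ) ^ 2 / 2 + (n : ℝ) / 3 := by
  induction n with
  | zero => simp
  | succ n ih =>
    have h2 : ((n.choose 2 : ℕ) : ℝ) = (n : ℝ) * ((n : ℝ) - 1) / 2 := Nat.cast_choose_two ℝ n
    rw [Nat.choose_succ_succ' n 2]
    push_cast
    rw [ih, h2]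
    ring

theorem card_le_of {n : ℕ} (H : Finset (Finset (Fin n))) (hH : ∀ e ∈ H, e.card = 3) (p q : ℕ)
    (h : p * ∑ a, ∑ b, ∑ c, (tri H a b c : ℤ) ≤ q * (Fintype.card (Fin n) : ℤ) ^ 3) :
    6 * p * H.card ≤ q * n ^ 3 := by
  have h1 := six_card_le hH
  have h2 : ((6 * H.card : ℕ) : ℤ) ≤ ∑ a, ∑ b, ∑ c, (tri H a b c : ℤ) := by exact_mod_cast h1
  rw [Fintype.card_fin] at h
  have h3 : (p : ℤ) * ((6 * H.card : ℕ) : ℤ) ≤ q * (n : ℤ) ^ 3 :=
    le_trans (mul_le_mul_of_nonneg_left h2 (by positivity)) h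
  have h4 : ((6 * p * H.card : ℕ) : ℤ) ≤ ((q * n ^ 3 : ℕ) : ℤ) := by
    push_cast at h3 ⊢; linarith
  exact_mod_cast h4

theorem compl_facts {n : ℕ} (G : Finset (Finset (Fin n))) (h3 : ∀ e ∈ G, e.card = 3) :
    (∀ e ∈ (univ.powersetCard 3 \ G), e.card = 3) ∧
      (univ.powersetCard 3 \ G).card + G.card = n.choose 3 := by
  refine ⟨fun e he => (mem_powersetCard.1 (mem_sdiff.1 he).1).2, ?_⟩
  rw [card_sdiff_add_card_eq_card, card_powersetCard, card_univ, Fintype.card_fin]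
  exact fun t ht => mem_powersetCard.2 ⟨subset_univ _, h3 t ht⟩

theorem compl_free {n : ℕ} (G : Finset (Finset (Fin n))) (h3 : ∀ e ∈ G, e.card = 3)
    (hc : ∀ S : Finset (Fin n), S.card = 4 → ∃ e ∈ G, e ⊆ S) :
    K43Free (univ.powersetCard 3 \ G) := by
  intro S hS
  obtain ⟨e, he, hes⟩ := hc S hS
  exact ⟨e, hes, h3 e he, fun h => (mem_sdiff.1 h).2 he⟩

theorem asym_lower (ε : ℝ) (hε : 0 < ε) : ∃ N : ℕ, ∀ n : ℕ, N ≤ n → ∀ g : ℝ,
    ((n.choose 3 : ℕ) : ℝ) - 5 / 54 * (n : ℝ) ^ 3 ≤ g →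
      (4 / 9 - ε) * ((n.choose 3 : ℕ) : ℝ) ≤ g := by
  obtain ⟨N, hN⟩ := exists_nat_gt (8 / ε)
  refine ⟨max N 8, fun n hn g hg => ?_⟩
  have hn1 : (N : ℝ) ≤ n := by exact_mod_cast (le_max_left N 8).trans hn
  have hn8 : (8 : ℝ) ≤ n := by exact_mod_cast (le_max_right N 8).trans hn
  have he : 8 ≤ ε * n := by
    have : 8 / ε < n := lt_of_lt_of_le hN hn1
    rw [div_lt_iff₀ hε] at this
    linarith
  have hmain : 5 / 54 * (n : ℝ) ^ 3 ≤ (5 / 9 + ε) * ((n.choose 3 : ℕ) : ℝ) := by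
    rw [choose_three]
    have h1 : (n : ℝ) ^ 3 / 6 - (n : ℝ) ^ 2 / 2 ≥ (n : ℝ) ^ 3 / 12 := by nlinarith [sq_nonneg (n : ℝ)]
    have h2 : 8 * ((n : ℝ) ^ 2 / 12) ≤ ε * n * ((n : ℝ) ^ 2 / 12) :=
      mul_le_mul_of_nonneg_right he (by positivity)
    have h3 : 0 ≤ ε * ((n : ℝ) / 3) := by positivity
    have h4 : ε * ((n : ℝ) ^ 3 / 12) ≤ ε * ((n : ℝ) ^ 3 / 6 - (n : ℝ) ^ 2 / 2) :=
      mul_le_mul_of_nonneg_left h1 hε.le
    have h5 : (0 : ℝ) ≤ n := by positivity
    nlinarith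
  linarith

/-! Turan's covering construction -/

/-- the rule on colours -/
def tc (a b c : Fin 3) : Prop :=
  (a = b ∧ b = c) ∨ (a = b ∧ c = a + 1) ∨ (a = c ∧ b = a + 1) ∨ (b = c ∧ a = b + 1)

instance (a b c : Fin 3) : Decidable (tc a b c) := by unfold tc; infer_instance

def col {n : ℕ} (x : Fin n) : Fin 3 := ⟨x.val % 3, Nat.mod_lt _ (by norm_num)⟩

open Classical in
noncomputable def turC (n : ℕ) : Finset (Finset (Fin n)) :=
  (univ.powersetCard 3).filter fun s => ∃ x y z, s = {x, y, z} ∧ tc (col x) (col y) (col z)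

theorem tc_perm : ∀ a b c : Fin 3, (tc a b c → tc b a c) ∧ (tc a b c → tc a c b) := by decide

theorem turC_three (n : ℕ) : ∀ e ∈ turC n, e.card = 3 := fun _ he =>
  (mem_powersetCard.1 (mem_filter.1 he).1).2

theorem mem_turC {n : ℕ} {x y z : Fin n} (hxy : x ≠ y) (hxz : x ≠ z) (hyz : y ≠ z) :
    ({x, y, z} : Finset (Fin n)) ∈ turC n ↔ tc (col x) (col y) (col z) := by
  have hc : ({x, y, z} : Finset (Fin n)).card = 3 := card_eq_three.2 ⟨x, y, z, hxy, hxz, hyz, rfl⟩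
  unfold turC
  rw [mem_filter, mem_powersetCard]
  constructor
  · rintro ⟨-, u, v, w, h, ht⟩
    have hx : x ∈ ({u, v, w} : Finset (Fin n)) := by rw [← h]; simp
    have hy : y ∈ ({u, v, w} : Finset (Fin n)) := by rw [← h]; simp
    have hz : z ∈ ({u, v, w} : Finset (Fin n)) := by rw [← h]; simp
    simp only [mem_insert, mem_singleton] at hx hy hz
    have p1 := fun a b c => (tc_perm a b c).1
    have p2 := fun a b c => (tc_perm a b c).2
    rcases hx with rfl | rfl | rfl <;> rcases hy with rfl | rfl | rfl <;>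
      rcases hz with rfl | rfl | rfl <;>
      first
        | exact absurd rfl hxy
        | exact absurd rfl hxz
        | exact absurd rfl hyz
        | exact ht
        | exact p1 _ _ _ ht
        | exact p2 _ _ _ ht
        | exact p1 _ _ _ (p2 _ _ _ ht)
        | exact p2 _ _ _ (p1 _ _ _ ht)
        | exact p1 _ _ _ (p2 _ _ _ (p1 _ _ _ ht))
  · intro h
    exact ⟨⟨subset_univ _, hc⟩, x, y, z, rfl, h⟩

theorem tc_four : ∀ a b c d : Fin 3, tc a b c ∨ tc a b d ∨ tc a c d ∨ tc b c d := by decide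

theorem turC_cover (n : ℕ) (S : Finset (Fin n)) (hS : S.card = 4) : ∃ e ∈ turC n, e ⊆ S := by
  obtain ⟨a, T, ha, rfl, hT⟩ := card_eq_succ.1 hS
  obtain ⟨b, c, d, hbc, hbd, hcd, rfl⟩ := card_eq_three.1 hT
  simp only [mem_insert, mem_singleton, not_or] at ha
  rcases tc_four (col a) (col b) (col c) (col d) with h | h | h | h
  · exact ⟨_, (mem_turC ha.1 ha.2.1 hbc).2 h, by intro t; simp only [mem_insert, mem_singleton]; tauto⟩
  · exact ⟨_, (mem_turC ha.1 ha.2.2 hbd).2 h, by intro t; simp only [mem_insert, mem_singleton]; tauto⟩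
  · exact ⟨_, (mem_turC ha.2.1 ha.2.2 hcd).2 h, by intro t; simp only [mem_insert, mem_singleton]; tauto⟩
  · exact ⟨_, (mem_turC hbc hbd hcd).2 h, by intro t; simp only [mem_insert, mem_singleton]; tauto⟩

theorem turC_noInd (n : ℕ) (F : Finset (Finset (Fin 6)))
    (hF : ∀ a b c d e f : Fin 3, ¬ ∀ i j k : Fin 6, i < j → j < k →
      (({i, j, k} : Finset (Fin 6)) ∈ F ↔
        tc (![a, b, c, d, e, f] i) (![a, b, c, d, e, f] j) (![a, b, c, d, e, f] k))) :
    ¬ HasInduced F (turC n) := by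
  rintro ⟨f, hf⟩
  refine hF (col (f 0)) (col (f 1)) (col (f 2)) (col (f 3)) (col (f 4)) (col (f 5))
    fun i j k hij hjk => ?_
  have e : (![col (f 0), col (f 1), col (f 2), col (f 3), col (f 4), col (f 5)] : Fin 6 → Fin 3)
      = fun i => col (f i) := by
    funext i; fin_cases i <;> rfl
  have hik := hij.trans hjk
  rw [e, hf _ (card_eq_three.2 ⟨i, j, k, hij.ne, hik.ne, hjk.ne, rfl⟩)]
  have e2 : ({i, j, k} : Finset (Fin 6)).map f = {f i, f j, f k} := by simp [map_insert]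
  rw [e2]
  exact mem_turC (f.injective.ne hij.ne) (f.injective.ne hik.ne) (f.injective.ne hjk.ne)

def cls (n : ℕ) (i : Fin 3) : Finset (Fin n) := univ.filter fun x : Fin n => col x = i

theorem card_cls (n : ℕ) (i : Fin 3) : (cls n i).card ≤ (n + 2) / 3 := by
  have h : (cls n i).card ≤ (range ((n + 2) / 3)).card := by
    refine card_le_card_of_injOn (fun x => x.val / 3) (fun x _ => ?_) (fun x hx y hy hxy => ?_)
    · have := x.2
      simp only [coe_range, Set.mem_Iio]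
      omega
    · have h1 : col x = i := (mem_filter.1 (mem_coe.1 hx)).2
      have h2 : col y = i := (mem_filter.1 (mem_coe.1 hy)).2
      have h3 : x.val % 3 = y.val % 3 := congrArg Fin.val (h1.trans h2.symm)
      apply Fin.ext
      simp only at hxy
      omega
  rwa [card_range] at h

theorem turC_sub (n : ℕ) :
    turC n ⊆ (univ : Finset (Fin 3)).biUnion (fun i => (cls n i).powersetCard 3 ∪
      ((cls n (i + 1)) ×ˢ ((cls n i).powersetCard 2)).image (fun p => insert p.1 p.2)) := by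
  intro s hs
  obtain ⟨x, y, z, hxy, hxz, hyz, rfl⟩ := card_eq_three.1 (turC_three n s hs)
  have hc := turC_three n _ hs
  have ht := (mem_turC hxy hxz hyz).1 hs
  have m : ∀ (u : Fin n) (i : Fin 3), col u = i → u ∈ cls n i := fun u i h =>
    mem_filter.2 ⟨mem_univ _, h⟩
  have two : ∀ (u v w : Fin n), u ≠ v → col u = col v → col w = col u + 1 →
      ({w, u, v} : Finset (Fin n)) ∈ (univ : Finset (Fin 3)).biUnion
        (fun i => (cls n i).powersetCard 3 ∪
      ((cls n (i + 1)) ×ˢ ((cls n i).powersetCard 2)).image (fun p => insert p.1 p.2)) := by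
    intro u v w huv h1 h2
    refine mem_biUnion.2 ⟨col u, mem_univ _, mem_union.2 (Or.inr (mem_image.2
      ⟨(w, {u, v}), mem_product.2 ⟨m _ _ h2, mem_powersetCard.2 ⟨?_, card_pair huv⟩⟩, rfl⟩))⟩
    intro t ht
    simp only [mem_insert, mem_singleton] at ht
    rcases ht with rfl | rfl
    · exact m _ _ rfl
    · exact m _ _ h1.symm
  rcases ht with ⟨h1, h2⟩ | ⟨h1, h2⟩ | ⟨h1, h2⟩ | ⟨h1, h2⟩
  · refine mem_biUnion.2 ⟨col x, mem_univ _, mem_union.2 (Or.inl (mem_powersetCard.2 ⟨?_, hc⟩))⟩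
    intro t ht
    simp only [mem_insert, mem_singleton] at ht
    rcases ht with rfl | rfl | rfl
    · exact m _ _ rfl
    · exact m _ _ h1.symm
    · exact m _ _ (h1.trans h2).symm
  · have e : ({x, y, z} : Finset (Fin n)) = {z, x, y} := by ext t; simp; tauto
    rw [e]; exact two x y z hxy h1 h2
  · have e : ({x, y, z} : Finset (Fin n)) = {y, x, z} := by ext t; simp; tauto
    rw [e]; exact two x z y hxz h1 h2
  · exact two y z x hyz h1 h2

theorem turC_card (n : ℕ) : ((turC n).card : ℝ) ≤ 2 / 27 * ((n : ℝ) + 2) ^ 3 := by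
  have h1 := card_le_card (turC_sub n)
  set c : ℕ := (n + 2) / 3 with hc
  have h2 : ∀ i ∈ (univ : Finset (Fin 3)), ((cls n i).powersetCard 3 ∪
      ((cls n (i + 1)) ×ˢ ((cls n i).powersetCard 2)).image (fun p => insert p.1 p.2)).card
      ≤ c.choose 3 + c * c.choose 2 := by
    intro i _
    refine (card_union_le _ _).trans (add_le_add ?_ (card_image_le.trans ?_))
    · rw [card_powersetCard]
      exact Nat.choose_le_choose _ (card_cls n i)
    · rw [card_product, card_powersetCard]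
      exact Nat.mul_le_mul (card_cls n (i + 1)) (Nat.choose_le_choose _ (card_cls n i))
  have h3 := h1.trans (card_biUnion_le.trans (sum_le_sum h2))
  rw [sum_const, card_univ, Fintype.card_fin, smul_eq_mul] at h3
  have h4 : ((turC n).card : ℝ) ≤ 3 * (((c.choose 3 : ℕ) : ℝ) + c * ((c.choose 2 : ℕ) : ℝ)) := by
    exact_mod_cast h3
  have h5 : ((c.choose 2 : ℕ) : ℝ) = (c : ℝ) * ((c : ℝ) - 1) / 2 := Nat.cast_choose_two ℝ c
  rw [choose_three, h5] at h4
  have h6 : (c : ℝ) ≤ ((n : ℝ) + 2) / 3 := by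
    have : 3 * c ≤ n + 2 := by omega
    have : (3 * c : ℝ) ≤ (n : ℝ) + 2 := by exact_mod_cast this
    linarith
  have h7 : (0 : ℝ) ≤ c := by positivity
  have h8 : (c : ℝ) ^ 3 ≤ (((n : ℝ) + 2) / 3) ^ 3 := pow_le_pow_left₀ h7 h6 3
  have h9 : 3 * ((c : ℝ) ^ 3 / 6 - (c : ℝ) ^ 2 / 2 + (c : ℝ) / 3 + c * ((c : ℝ) * ((c : ℝ) - 1) / 2))
      ≤ 2 * (c : ℝ) ^ 3 := by
    rcases Nat.eq_zero_or_pos c with h0 | h0
    · rw [h0]; norm_num
    · have : (1 : ℝ) ≤ c := by exact_mod_cast h0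
      nlinarith
  have h10 : 2 * (((n : ℝ) + 2) / 3) ^ 3 = 2 / 27 * ((n : ℝ) + 2) ^ 3 := by ring
  linarith

theorem turC_asym (ε : ℝ) (hε : 0 < ε) : ∃ N : ℕ, ∀ n : ℕ, N ≤ n →
    ((turC n).card : ℝ) ≤ (4 / 9 + ε) * ((n.choose 3 : ℕ) : ℝ) := by
  obtain ⟨N, hN⟩ := exists_nat_gt (80 / ε)
  refine ⟨max N 8, fun n hn => ?_⟩
  have hn1 : (N : ℝ) ≤ n := by exact_mod_cast (le_max_left N 8).trans hn
  have hn8 : (8 : ℝ) ≤ n := by exact_mod_cast (le_max_right N 8).trans hn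
  have he : 80 ≤ ε * n := by
    have : 80 / ε < n := lt_of_lt_of_le hN hn1
    rw [div_lt_iff₀ hε] at this
    linarith
  have h0 := turC_card n
  rw [choose_three]
  have h1 : (n : ℝ) ^ 3 / 6 - (n : ℝ) ^ 2 / 2 ≥ (n : ℝ) ^ 3 / 12 := by
    nlinarith [sq_nonneg (n : ℝ)]
  have h2 : 80 * ((n : ℝ) ^ 2 / 12) ≤ ε * n * ((n : ℝ) ^ 2 / 12) :=
    mul_le_mul_of_nonneg_right he (by positivity)
  have h3 : 0 ≤ ε * ((n : ℝ) / 3) := by positivity
  have h4 : ε * ((n : ℝ) ^ 3 / 12) ≤ ε * ((n : ℝ) ^ 3 / 6 - (n : ℝ) ^ 2 / 2) :=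
    mul_le_mul_of_nonneg_left h1 hε.le
  nlinarith

end Pool.Agent.H137Z.T3
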