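import Pool.Agent.H137Z.T3.BChk
import Pool.Agent.H137Z.T3.BPsd

set_option autoImplicit false
set_option maxRecDepth 100000
open Finset

namespace Pool.Agent.H137Z.T3.B

open Pool.Agent.H122R2.N6 Pool.Agent.H137Z.T3

theorem hc (b012 b013 b023 b123 b014 b024 b124 b034 b134 b234 : ℕ) (hb012 : Bt b012) (hb013 : Bt b013) (hb023 : Bt b023) (hb123 : Bt b123) (hb014 : Bt b014) (hb024 : Bt b024) (hb124 : Bt b124) (hb034 : Bt b034) (hb134 : Bt b134) (hb234 : Bt b234) (ht : tg b012 b013 b023 b123 b014 b024 b124 b034 b134 b234 = 4) :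
    chkG k4last (forbL FL) q4 q2 CST b012 b013 b023 b123 b014 b024 b124 b034 b134 b234 = true := by
  have h : part b012 b013 = true := by
    rcases hb012 with rfl | rfl <;> rcases hb013 with rfl | rfl
    exacts [part00, part01, part10, part11]
  have h2 := (B2_true (B2_true (B2_true (B2_true (B2_true (B2_true (B2_true (B2_true h hb023) hb123) hb014) hb024) hb124) hb034) hb134) hb234)
  refine or_false_left h2 ?_
  rw [ht]
  rfl

theorem rng : (nall 16 fun c => and (Nat.blt (rho c) 4) (nall 64 fun i => Nat.blt (pc c i) 64)) = true := by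
  decide +kernel

theorem rho_lt {c : ℕ} (h : c < 16) : rho c < 4 := by
  have := nall_true rng c h
  rw [Bool.and_eq_true] at this
  exact Nat.le_of_ble_eq_true this.1

theorem pc_lt {c i : ℕ} (h : c < 16) (hi : i < 64) : pc c i < 64 := by
  have := nall_true rng c h
  rw [Bool.and_eq_true] at this
  exact Nat.le_of_ble_eq_true (nall_true this.2 i hi)

theorem g4_all {r i j : ℕ} (hr : r < 4) (hi : i < 64) (hj : j < 64) :
    gram 128 2097152 604462909807314587353088 (w4 r) (l4 r i) (l4 r j) (tq r i j) = true := by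
  have h : chk4 r = true := by
    interval_cases r
    exacts [cp0, cp1, cp2, cp3]
  exact nall_true (nall_true h i hi) j hj

theorem hq4 (c i j : ℕ) (hc : c < 16) (hi : i < 64) (hj : j < 64) : (q4 c i j : ℤ) =
    ∑ k ∈ range 128, (w4 (rho c) k : ℤ) * ((l4 (rho c) (pc c i) k : ℤ) - 2097152) *
      ((l4 (rho c) (pc c j) k : ℤ) - 2097152) + (604462909807314587353088 + 26515451174194677547008 * (pop c : ℤ)) := by
  have h := gram_eq (g4_all (rho_lt hc) (pc_lt hc hi) (pc_lt hc hj))
  have h3 : q4 c i j = tq (rho c) (pc c i) (pc c j) + 26515451174194677547008 * pop c := rfl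
  rw [h3]
  push_cast at h ⊢
  linarith

theorem hq2 (i j : ℕ) (hi : i < 16) (hj : j < 16) : (q2 i j : ℤ) =
    ∑ k ∈ range 22, (w2 k : ℤ) * ((l2 i k : ℤ) - 2097152) * ((l2 j k : ℤ) - 2097152) + 604462909807314587353088 := by
  have h := gram_eq (nall_true (nall_true cpb i hi) j hj)
  push_cast at h
  exact h

theorem FL_codes : ∀ r ∈ FL, r.2.2 = 97788 ∨ r.2.2 = 96747 := by decide +kernel

theorem final {V : Type} [Fintype V] {E : V → V → V → ℕ} (hE : Sy E) (hK : NoK4 E)
    (h0 : NoInd E 97788) (h1 : NoInd E 96747) :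
    9 * ∑ a, ∑ b, ∑ c, (E a b c : ℤ) ≤ 5 * (Fintype.card V : ℤ) ^ 3 := by
  have hF : ∀ r ∈ FL, NoInd E r.2.2 := fun r hr => by
    rcases FL_codes r hr with h | h <;> rw [h] <;> assumption
  have hb := bound E hE 128 22 CST q4 (fun c k => w4 (rho c) k) (fun c i k => l4 (rho c) (pc c i) k)
    q2 w2 l2 2097152 604462909807314587353088 604462909807314587353088 (fun c => 26515451174194677547008 * (pop c : ℤ)) hq4 hq2
    (leaf_allK4 hE hK (forbL_false hE FL hF) cs4 cs2 hc)
  have hC : (CST : ℤ) = 37151622960912031159418880 := rfl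
  rw [hC, Sv_pop hE] at hb
  set n : ℤ := (Fintype.card V : ℤ) with hn
  set S : ℤ := ∑ a, ∑ b, ∑ c, (E a b c : ℤ) with hS
  rcases isEmpty_or_nonempty V with hV | hV
  · simp [hS, hn]
  · have hpos : 0 < n := by rw [hn]; exact_mod_cast Fintype.card_pos
    have h6 : n ^ 3 * (9 * S) ≤ n ^ 3 * (5 * n ^ 3) := by nlinarith
    exact le_of_mul_le_mul_left h6 (by positivity)

end Pool.Agent.H137Z.T3.B
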