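import Pool.Agent.H137Z.T3.BFin
import Pool.Agent.H137Z.T3.Top

set_option autoImplicit false
set_option maxRecDepth 100000
open Finset

namespace Pool.Agent.H137Z.T3.B

open Pool.Agent.H122R2.N6 Pool.Agent.H137Z.T3

def G0 : Finset (Finset (Fin 6)) := {{0, 1, 2}, {0, 1, 3}, {1, 4, 5}, {2, 3, 4}, {2, 3, 5}, {2, 4, 5}, {3, 4, 5}}
def K0 : Finset (Finset (Fin 6)) := {{0, 1, 4}, {0, 1, 5}, {0, 2, 3}, {0, 2, 4}, {0, 2, 5}, {0, 3, 4}, {0, 3, 5}, {0, 4, 5}, {1, 2, 3}, {1, 2, 4}, {1, 2, 5}, {1, 3, 4}, {1, 3, 5}}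
theorem c0 : ∀ t : Finset (Fin 6), t.card = 3 → (t ∈ K0 ↔ t ∉ G0) := by decide +kernel
theorem b0 : ∀ i j k : Fin 6, i < j → j < k →
    bitc 97788 i j k = if {i, j, k} ∈ K0 then 1 else 0 := by decide +kernel
theorem p0 : ∀ i j : Fin 6, i ≠ j → ∃ k, ({i, j, k} : Finset (Fin 6)).card = 3 ∧ {i, j, k} ∈ K0 := by
  decide +kernel
theorem t0 : ∀ a b c d e f : Fin 3, ¬ ∀ i j k : Fin 6, i < j → j < k →
      (({i, j, k} : Finset (Fin 6)) ∈ G0 ↔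
        tc (![a, b, c, d, e, f] i) (![a, b, c, d, e, f] j) (![a, b, c, d, e, f] k)) := by
  decide +kernel

def G1 : Finset (Finset (Fin 6)) := {{0, 1, 4}, {0, 1, 5}, {0, 2, 3}, {1, 4, 5}, {2, 3, 4}, {2, 3, 5}, {2, 4, 5}, {3, 4, 5}}
def K1 : Finset (Finset (Fin 6)) := {{0, 1, 2}, {0, 1, 3}, {0, 2, 4}, {0, 2, 5}, {0, 3, 4}, {0, 3, 5}, {0, 4, 5}, {1, 2, 3}, {1, 2, 4}, {1, 2, 5}, {1, 3, 4}, {1, 3, 5}}
theorem c1 : ∀ t : Finset (Fin 6), t.card = 3 → (t ∈ K1 ↔ t ∉ G1) := by decide +kernel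
theorem b1 : ∀ i j k : Fin 6, i < j → j < k →
    bitc 96747 i j k = if {i, j, k} ∈ K1 then 1 else 0 := by decide +kernel
theorem p1 : ∀ i j : Fin 6, i ≠ j → ∃ k, ({i, j, k} : Finset (Fin 6)).card = 3 ∧ {i, j, k} ∈ K1 := by
  decide +kernel
theorem t1 : ∀ a b c d e f : Fin 3, ¬ ∀ i j k : Fin 6, i < j → j < k →
      (({i, j, k} : Finset (Fin 6)) ∈ G1 ↔
        tc (![a, b, c, d, e, f] i) (![a, b, c, d, e, f] j) (![a, b, c, d, e, f] k)) := by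
  decide +kernel

theorem upper {n : ℕ} (H : Finset (Finset (Fin n))) (h3 : ∀ e ∈ H, e.card = 3) (hK : K43Free H)
    (h10 : ¬ HasInduced K0 H) (h11 : ¬ HasInduced K1 H) : 54 * H.card ≤ 5 * n ^ 3 :=
  card_le_of H h3 9 5 (final (tri_sy H) (tri_noK4 h3 hK)
    (noInd_of_ind K0 _ b0 p0 H h3 h10) (noInd_of_ind K1 _ b1 p1 H h3 h11))

theorem cover {n : ℕ} (G : Finset (Finset (Fin n))) (h3 : ∀ e ∈ G, e.card = 3)
    (hc : ∀ S : Finset (Fin n), S.card = 4 → ∃ e ∈ G, e ⊆ S)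
    (h10 : ¬ HasInduced G0 G) (h11 : ¬ HasInduced G1 G) :
    ((n.choose 3 : ℕ) : ℝ) - 5 / 54 * (n : ℝ) ^ 3 ≤ (G.card : ℝ) := by
  obtain ⟨f1, f2⟩ := compl_facts G h3
  have h := upper _ f1 (compl_free G h3 hc)
    (fun h => h10 (ind_compl G0 K0 c0 G h)) (fun h => h11 (ind_compl G1 K1 c1 G h))
  have h' : (54 : ℝ) * ((univ.powersetCard 3 \ G).card : ℝ) ≤ 5 * (n : ℝ) ^ 3 := by exact_mod_cast h
  have f3 : ((univ.powersetCard 3 \ G).card : ℝ) + (G.card : ℝ) = ((n.choose 3 : ℕ) : ℝ) := by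
    exact_mod_cast f2
  linarith

theorem main :
    (∀ (n : ℕ) (G : Finset (Finset (Fin n))), (∀ e ∈ G, e.card = 3) →
      (∀ S : Finset (Fin n), S.card = 4 → ∃ e ∈ G, e ⊆ S) →
      ¬ HasInduced G0 G → ¬ HasInduced G1 G →
      ((n.choose 3 : ℕ) : ℝ) - 5 / 54 * (n : ℝ) ^ 3 ≤ (G.card : ℝ)) ∧
    (∀ ε : ℝ, 0 < ε → ∃ N : ℕ, ∀ n : ℕ, N ≤ n →
      (∀ G : Finset (Finset (Fin n)), (∀ e ∈ G, e.card = 3) →
        (∀ S : Finset (Fin n), S.card = 4 → ∃ e ∈ G, e ⊆ S) →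
        ¬ HasInduced G0 G → ¬ HasInduced G1 G →
        (4 / 9 - ε) * ((n.choose 3 : ℕ) : ℝ) ≤ (G.card : ℝ)) ∧
      (∃ G : Finset (Finset (Fin n)), (∀ e ∈ G, e.card = 3) ∧
        (∀ S : Finset (Fin n), S.card = 4 → ∃ e ∈ G, e ⊆ S) ∧
        ¬ HasInduced G0 G ∧ ¬ HasInduced G1 G ∧
        (G.card : ℝ) ≤ (4 / 9 + ε) * ((n.choose 3 : ℕ) : ℝ))) := by
  refine ⟨fun n G h3 hc a0 a1 => cover G h3 hc a0 a1, fun ε hε => ?_⟩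
  obtain ⟨N1, h1⟩ := asym_lower ε hε
  obtain ⟨N2, h2⟩ := turC_asym ε hε
  refine ⟨max N1 N2, fun n hn => ⟨fun G h3 hc a0 a1 => ?_, turC n, turC_three n, turC_cover n,
    turC_noInd n G0 t0, turC_noInd n G1 t1, h2 n ((le_max_right _ _).trans hn)⟩⟩
  exact h1 n ((le_max_left _ _).trans hn) _ (cover G h3 hc a0 a1)

end Pool.Agent.H137Z.T3.B
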