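import Pool.Agent.H122R2.N6.Bound
import Pool.Agent.H122R2.N6.Count

/-! Six-vertex flag certificates for 3-graphs with forbidden induced six-vertex subgraphs. -/

set_option autoImplicit false
set_option maxRecDepth 100000
open Finset

namespace Pool.Agent.H137Z.T3

open Pool.Agent.H122R2.N6

/-- position of a triple in the list of the twenty bits -/
def ix : Fin 6 → Fin 6 → Fin 6 → Fin 20 := ![![![0, 0, 0, 0, 0, 0], ![0, 0, 0, 1, 4, 10], ![0, 0, 0, 2, 5, 11], ![0, 1, 2, 0, 7, 13], ![0, 4, 5, 7, 0, 16], ![0, 10, 11, 13, 16, 0]], ![![0, 0, 0, 1, 4, 10], ![0, 0, 0, 0, 0, 0], ![0, 0, 0, 3, 6, 12], ![1, 0, 3, 0, 8, 14], ![4, 0, 6, 8, 0, 17], ![10, 0, 12, 14, 17, 0]], ![![0, 0, 0, 2, 5, 11], ![0, 0, 0, 3, 6, 12], ![0, 0, 0, 0, 0, 0], ![2, 3, 0, 0, 9, 15], ![5, 6, 0, 9, 0, 18], ![11, 12, 0, 15, 18, 0]], ![![0, 1, 2, 0, 7, 13], ![1, 0, 3, 0, 8, 14], ![2, 3, 0, 0, 9, 15], ![0, 0, 0, 0, 0, 0], ![7, 8, 9,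 0, 0, 19], ![13, 14, 15, 0, 19, 0]], ![![0, 4, 5, 7, 0, 16], ![4, 0, 6, 8, 0, 17], ![5, 6, 0, 9, 0, 18], ![7, 8, 9, 0, 0, 19], ![0, 0, 0, 0, 0, 0], ![16, 17, 18, 19, 0, 0]], ![![0, 10, 11, 13, 16, 0], ![10, 0, 12, 14, 17, 0], ![11, 12, 0, 15, 18, 0], ![13, 14, 15, 0, 19, 0], ![16, 17, 18, 19, 0, 0], ![0, 0, 0, 0, 0, 0]]]

def g6 (b012 b013 b023 b123 b014 b024 b124 b034 b134 b234 b015 b025 b125 b035 b135 b235 b045 b145 b245 b345 : ℕ) (i j k : Fin 6) : ℕ :=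
  ![b012, b013, b023, b123, b014, b024, b124, b034, b134, b234, b015, b025, b125, b035, b135, b235, b045, b145, b245, b345] (ix i j k)

def code20 (b012 b013 b023 b123 b014 b024 b124 b034 b134 b234 b015 b025 b125 b035 b135 b235 b045 b145 b245 b345 : ℕ) : ℕ := (Nat.add b012 (Nat.mul 2 (Nat.add b013 (Nat.mul 2 (Nat.add b023 (Nat.mul 2 (Nat.add b123 (Nat.mul 2 (Nat.add b014 (Nat.mul 2 (Nat.add b024 (Nat.mul 2 (Nat.add b124 (Nat.mul 2 (Nat.add b034 (Nat.mul 2 (Nat.add b134 (Nat.mul 2 (Nat.add b234 (Nat.mul 2 (Nat.add b015 (Nat.mul 2 (Nat.add b025 (Nat.mul 2 (Nat.add b125 (Nat.mul 2 (Nat.add b035 (Nat.mul 2 (Nat.add b135 (Nat.mul 2 (Nat.add b235 (Nat.mul 2 (Nat.add b045 (Nat.mul 2 (Nat.add b145 (Nat.mul 2 (Nat.add b245 (Nat.mul 2 b345))))))))))))))))))))))))))))))))))))))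

def bitc (c : ℕ) (i j k : Fin 6) : ℕ := (c >>> (ix i j k).val) % 2

def chkIso (g : Fin 6 → Fin 6 → Fin 6 → ℕ) (p : Fin 6 → Fin 6) (c : ℕ) : Bool :=
  decide ((∀ i j : Fin 6, p i = p j → i = j) ∧
    ∀ i j k : Fin 6, i < j → j < k → g (p i) (p j) (p k) = bitc c i j k)

def forbL (FL : List (ℕ × (Fin 6 → Fin 6) × ℕ)) (b012 b013 b023 b123 b014 b024 b124 b034 b134 b234 b015 b025 b125 b035 b135 b235 b045 b145 b245 b345 : ℕ) : Bool :=
  FL.any fun r => and (Nat.beq (code20 b012 b013 b023 b123 b014 b024 b124 b034 b134 b234 b015 b025 b125 b035 b135 b235 b045 b145 b245 b345) r.1) (chkIso (g6 b012 b013 b023 b123 b014 b024 b124 b034 b134 b234 b015 b025 b125 b035 b135 b235 b045 b145 b245 b345) r.2.1 r.2.2)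

/-- a complete 3-graph on four vertices through the last vertex -/
def k4last (b012 b013 b023 b123 b014 b024 b124 b034 b134 b234 b015 b025 b125 b035 b135 b235 b045 b145 b245 b345 : ℕ) : Bool := (or (k4b b012 b015 b025 b125) (or (k4b b013 b015 b035 b135) (or (k4b b014 b015 b045 b145) (or (k4b b023 b025 b035 b235) (or (k4b b024 b025 b045 b245) (or (k4b b034 b035 b045 b345) (or (k4b b123 b125 b135 b235) (or (k4b b124 b125 b145 b245) (or (k4b b134 b135 b145 b345) (or (k4b b234 b235 b245 b345) false))))))))))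

def chkG (p1 p2 : ℕ → ℕ → ℕ → ℕ → ℕ → ℕ → ℕ → ℕ → ℕ → ℕ → ℕ → ℕ → ℕ → ℕ → ℕ → ℕ → ℕ → ℕ → ℕ → ℕ → Bool) (q4 : ℕ → ℕ → ℕ → ℕ) (q2 : ℕ → ℕ → ℕ) (C : ℕ) (b012 b013 b023 b123 b014 b024 b124 b034 b134 b234 : ℕ) : Bool :=
  B2 fun b015 => B2 fun b025 => B2 fun b125 => B2 fun b035 => B2 fun b135 => B2 fun b235 => B2 fun b045 => B2 fun b145 => B2 fun b245 => B2 fun b345 => or (p1 b012 b013 b023 b123 b014 b024 b124 b034 b134 b234 b015 b025 b125 b035 b135 b235 b045 b145 b245 b345) (or (Nat.ble (Nat.add (leaf4 q4 b012 b013 b023 b123 b014 b024 b124 b034 b134 b234 b015 b025 b125 b035 b135 b235 b045 b145 b245 b345) (leaf2 q2 b012 b013 b023 b123 b014 b024 b124 b034 b134 b234 b015 b025 b125 b035 b135 b235 b045 b145 b245 b345)) C) (p2 b012 b013 b023 b123 b014 b024 b124 b034 b134 b234 b015 b025 b125 b035 b135 b235 b045 b145 b245 b345))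

section
variable {V : Type} {E : V → V → V → ℕ}

/-- no six (not necessarily distinct) vertices carry the structure with code `c` -/
def NoInd (E : V → V → V → ℕ) (c : ℕ) : Prop :=
  ∀ x : Fin 6 → V, ¬ ∀ i j k : Fin 6, i < j → j < k → E (x i) (x j) (x k) = bitc c i j k

theorem ix_sym : ∀ i j k : Fin 6, ix j i k = ix i j k ∧ ix i k j = ix i j k := by decide

theorem g6_sorted (a b c d e f : V) (i j k : Fin 6) (h1 : i < j) (h2 : j < k) :
    g6 (E a b c) (E a b d) (E a c d) (E b c d) (E a b e) (E a c e) (E b c e) (E a d e) (E b d e) (E c d e) (E a b f) (E a c f) (E b c f) (E a d f) (E b d f) (E c d f) (E a e f) (E b e f) (E c e f) (E d e f) i j k = E (![a, b, c, d, e, f] i) (![a, b, c, d, e, f] j) (![a, b, c, d, e, f] k) := by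
  fin_cases i <;> fin_cases j <;> fin_cases k <;> first | rfl | (exfalso; revert h1 h2; decide)

theorem g6_eq (hE : Sy E) (a b c d e f : V) (i j k : Fin 6) (h1 : i ≠ j) (h2 : i ≠ k) (h3 : j ≠ k) :
    g6 (E a b c) (E a b d) (E a c d) (E b c d) (E a b e) (E a c e) (E b c e) (E a d e) (E b d e) (E c d e) (E a b f) (E a c f) (E b c f) (E a d f) (E b d f) (E c d f) (E a e f) (E b e f) (E c e f) (E d e f) i j k = E (![a, b, c, d, e, f] i) (![a, b, c, d, e, f] j) (![a, b, c, d, e, f] k) := by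
  have s1 : ∀ i j k : Fin 6, g6 (E a b c) (E a b d) (E a c d) (E b c d) (E a b e) (E a c e) (E b c e) (E a d e) (E b d e) (E c d e) (E a b f) (E a c f) (E b c f) (E a d f) (E b d f) (E c d f) (E a e f) (E b e f) (E c e f) (E d e f) j i k = g6 (E a b c) (E a b d) (E a c d) (E b c d) (E a b e) (E a c e) (E b c e) (E a d e) (E b d e) (E c d e) (E a b f) (E a c f) (E b c f) (E a d f) (E b d f) (E c d f) (E a e f) (E b e f) (E c e f) (E d e f) i j k := fun i j k => by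
    unfold g6; rw [(ix_sym i j k).1]
  have s2 : ∀ i j k : Fin 6, g6 (E a b c) (E a b d) (E a c d) (E b c d) (E a b e) (E a c e) (E b c e) (E a d e) (E b d e) (E c d e) (E a b f) (E a c f) (E b c f) (E a d f) (E b d f) (E c d f) (E a e f) (E b e f) (E c e f) (E d e f) i k j = g6 (E a b c) (E a b d) (E a c d) (E b c d) (E a b e) (E a c e) (E b c e) (E a d e) (E b d e) (E c d e) (E a b f) (E a c f) (E b c f) (E a d f) (E b d f) (E c d f) (E a e f) (E b e f) (E c e f) (E d e f) i j k := fun i j k => by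
    unfold g6; rw [(ix_sym i j k).2]
  rcases lt_or_gt_of_ne h1 with p1 | p1 <;> rcases lt_or_gt_of_ne h2 with p2 | p2 <;>
    rcases lt_or_gt_of_ne h3 with p3 | p3
  · exact g6_sorted a b c d e f i j k p1 p3
  · rw [← s2, g6_sorted a b c d e f i k j p2 p3, hE.h132]
  · exact absurd (p1.trans p3) (not_lt.2 p2.le)
  · rw [← s2, ← s1, g6_sorted a b c d e f k i j p2 p1, hE.h312]
  · rw [← s1, g6_sorted a b c d e f j i k p1 p2, hE.h213]
  · exact absurd (p3.trans p1) (not_lt.2 p2.le)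
  · rw [← s1, ← s2, g6_sorted a b c d e f j k i p3 p2, hE.h231]
  · rw [← s1, ← s2, ← s1, g6_sorted a b c d e f k j i p3 p1, hE.h213, hE.h231]

theorem forbL_false (hE : Sy E) (FL : List (ℕ × (Fin 6 → Fin 6) × ℕ))
    (h : ∀ r ∈ FL, NoInd E r.2.2) (a b c d e f : V) : forbL FL (E a b c) (E a b d) (E a c d) (E b c d) (E a b e) (E a c e) (E b c e) (E a d e) (E b d e) (E c d e) (E a b f) (E a c f) (E b c f) (E a d f) (E b d f) (E c d f) (E a e f) (E b e f) (E c e f) (E d e f) = false := by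
  by_contra hcon
  rw [Bool.not_eq_false] at hcon
  unfold forbL at hcon
  rw [List.any_eq_true] at hcon
  obtain ⟨r, hr, h2⟩ := hcon
  rw [Bool.and_eq_true] at h2
  obtain ⟨hinj, h3⟩ := of_decide_eq_true h2.2
  refine h r hr (fun i => ![a, b, c, d, e, f] (r.2.1 i)) fun i j k hij hjk => ?_
  rw [← h3 i j k hij hjk]
  exact (g6_eq hE a b c d e f _ _ _ (fun h => hij.ne (hinj _ _ h))
    (fun h => (hij.trans hjk).ne (hinj _ _ h)) (fun h => hjk.ne (hinj _ _ h))).symm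

theorem k4last_false (hK : NoK4 E) (a b c d e f : V) : k4last (E a b c) (E a b d) (E a c d) (E b c d) (E a b e) (E a c e) (E b c e) (E a d e) (E b d e) (E c d e) (E a b f) (E a c f) (E b c f) (E a d f) (E b d f) (E c d f) (E a e f) (E b e f) (E c e f) (E d e f) = false := by
  unfold k4last
  rw [hK a b c f, hK a b d f, hK a b e f, hK a c d f, hK a c e f, hK a d e f, hK b c d f, hK b c e f, hK b d e f, hK c d e f]
  rfl

theorem chkG_sound (hE : Sy E) {p1 p2 : ℕ → ℕ → ℕ → ℕ → ℕ → ℕ → ℕ → ℕ → ℕ → ℕ → ℕ → ℕ → ℕ → ℕ → ℕ → ℕ → ℕ → ℕ → ℕ → ℕ → Bool}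
    (h1 : ∀ a b c d e f : V, p1 (E a b c) (E a b d) (E a c d) (E b c d) (E a b e) (E a c e) (E b c e) (E a d e) (E b d e) (E c d e) (E a b f) (E a c f) (E b c f) (E a d f) (E b d f) (E c d f) (E a e f) (E b e f) (E c e f) (E d e f) = false) (h2 : ∀ a b c d e f : V, p2 (E a b c) (E a b d) (E a c d) (E b c d) (E a b e) (E a c e) (E b c e) (E a d e) (E b d e) (E c d e) (E a b f) (E a c f) (E b c f) (E a d f) (E b d f) (E c d f) (E a e f) (E b e f) (E c e f) (E d e f) = false)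
    {q4 : ℕ → ℕ → ℕ → ℕ} {q2 : ℕ → ℕ → ℕ} {C : ℕ} (a b c d e f : V)
    (h : chkG p1 p2 q4 q2 C (E a b c) (E a b d) (E a c d) (E b c d) (E a b e) (E a c e) (E b c e) (E a d e) (E b d e) (E c d e) = true) : L4 E q4 a b c d e f + L2 E q2 a b c d e f ≤ C := by
  have h3 := or_false_left (B2_true (B2_true (B2_true (B2_true (B2_true (B2_true (B2_true (B2_true (B2_true (B2_true h (hE.b a b f)) (hE.b a c f)) (hE.b b c f)) (hE.b a d f)) (hE.b b d f)) (hE.b c d f)) (hE.b a e f)) (hE.b b e f)) (hE.b c e f)) (hE.b d e f)) (h1 a b c d e f)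
  rw [h2 a b c d e f, Bool.or_false] at h3
  have h4 : K4l E q4 a b c d e f + K2l E q2 a b c d e f ≤ C := Nat.le_of_ble_eq_true h3
  rwa [K4l_eq E q4 hE.h132 hE.h231 hE.h213 hE.h312, K2l_eq E q2 hE.h132 hE.h231 hE.h213 hE.h312] at h4

theorem leaf_allK4 (hE : Sy E) (hK : NoK4 E) {p2 : ℕ → ℕ → ℕ → ℕ → ℕ → ℕ → ℕ → ℕ → ℕ → ℕ → ℕ → ℕ → ℕ → ℕ → ℕ → ℕ → ℕ → ℕ → ℕ → ℕ → Bool}
    (h2 : ∀ a b c d e f : V, p2 (E a b c) (E a b d) (E a c d) (E b c d) (E a b e) (E a c e) (E b c e) (E a d e) (E b d e) (E c d e) (E a b f) (E a c f) (E b c f) (E a d f) (E b d f) (E c d f) (E a e f) (E b e f) (E c e f) (E d e f) = false)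
    {q4 : ℕ → ℕ → ℕ → ℕ} {q2 : ℕ → ℕ → ℕ} {C : ℕ}
    (hs4 : sym4 q4 = true) (hs2 : sym2 q2 = true)
    (hc : ∀ b012 b013 b023 b123 b014 b024 b124 b034 b134 b234 : ℕ, Bt b012 → Bt b013 → Bt b023 → Bt b123 → Bt b014 → Bt b024 → Bt b124 → Bt b034 → Bt b134 → Bt b234 → tg b012 b013 b023 b123 b014 b024 b124 b034 b134 b234 = 4 → chkG k4last p2 q4 q2 C b012 b013 b023 b123 b014 b024 b124 b034 b134 b234 = true)
    (a b c d e f : V) : L4 E q4 a b c d e f + L2 E q2 a b c d e f ≤ C := by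
  have h := (B2_true (B2_true (B2_true (B2_true (B2_true (B2_true (B2_true (B2_true (B2_true (B2_true walk_all (hE.b a b c)) (hE.b a b d)) (hE.b a c d)) (hE.b b c d)) (hE.b a b e)) (hE.b a c e)) (hE.b b c e)) (hE.b a d e)) (hE.b b d e)) (hE.b c d e))
  have h5 : five (E a b c) (E a b d) (E a c d) (E b c d) (E a b e) (E a c e) (E b c e) (E a d e) (E b d e) (E c d e) = false := by
    unfold five
    rw [hK a b c d, hK a b c e, hK a b d e, hK a c d e, hK b c d e]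
    rfl
  have hw := or_false_left h h5
  refine walk_good hE hs4 hs2 (fun b012 b013 b023 b123 b014 b024 b124 b034 b134 b234 h4 => ?_) _ _ _ _ _ _ _ _ _ _ _ hw
    a b c d e f rfl rfl rfl rfl rfl rfl rfl rfl rfl rfl
  intro a b c d e f h0 h1 h2' h3 h4' h5 h6 h7 h8 h9
  subst h0 h1 h2' h3 h4' h5 h6 h7 h8 h9
  exact chkG_sound hE (k4last_false hK) h2 a b c d e f
    (hc _ _ _ _ _ _ _ _ _ _ (hE.b _ _ _) (hE.b _ _ _) (hE.b _ _ _) (hE.b _ _ _) (hE.b _ _ _) (hE.b _ _ _) (hE.b _ _ _) (hE.b _ _ _) (hE.b _ _ _) (hE.b _ _ _) h4)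

end

theorem expand (s : Finset ℕ) (w u v : ℕ → ℕ) (B : ℤ) :
    ∑ k ∈ s, (w k : ℤ) * ((u k : ℤ) - B) * ((v k : ℤ) - B) =
      ∑ k ∈ s, (w k : ℤ) * ((u k : ℤ) * (v k : ℤ)) + B ^ 2 * ∑ k ∈ s, (w k : ℤ)
        - B * (∑ k ∈ s, (w k : ℤ) * (u k : ℤ) + ∑ k ∈ s, (w k : ℤ) * (v k : ℤ)) := by
  rw [mul_add, mul_sum, mul_sum, mul_sum, ← sum_add_distrib, ← sum_add_distrib, ← sum_sub_distrib]
  exact sum_congr rfl fun k _ => by ring

/-- the Gram identity for one entry -/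
def gram (K B O : ℕ) (w u v : ℕ → ℕ) (q : ℕ) : Bool :=
  Nat.beq (Nat.add (nsum K fun k => Nat.mul (w k) (Nat.mul (u k) (v k)))
      (Nat.add (Nat.mul (Nat.mul B B) (nsum K w)) O))
    (Nat.add q (Nat.mul B (Nat.add (nsum K fun k => Nat.mul (w k) (u k))
      (nsum K fun k => Nat.mul (w k) (v k)))))

theorem gram_eq {K B O : ℕ} {w u v : ℕ → ℕ} {q : ℕ} (h : gram K B O w u v q = true) :
    (q : ℤ) = ∑ k ∈ range K, (w k : ℤ) * ((u k : ℤ) - B) * ((v k : ℤ) - B) + O := by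
  have h1 := Nat.eq_of_beq_eq_true h
  rw [nsum_eq, nsum_eq, nsum_eq, nsum_eq] at h1
  have h2 := congrArg (fun n : ℕ => (n : ℤ)) h1
  simp only [Nat.add_eq, Nat.mul_eq] at h2
  push_cast at h2
  rw [expand]
  linarith

/-- number of edges in a four-vertex code -/
def pop (c : ℕ) : ℕ := c % 2 + c / 2 % 2 + c / 4 % 2 + c / 8 % 2

theorem pop_cd {x y z w : ℕ} (hx : Bt x) (hy : Bt y) (hz : Bt z) (hw : Bt w) :
    pop (cd4 x y z w) = x + y + z + w := by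
  rcases hx with rfl | rfl <;> rcases hy with rfl | rfl <;> rcases hz with rfl | rfl <;>
    rcases hw with rfl | rfl <;> rfl

theorem Sv_pop {V : Type} [Fintype V] {E : V → V → V → ℕ} (hE : Sy E) (τ : ℤ) :
    Sv E (fun c => τ * pop c) =
      4 * τ * (Fintype.card V : ℤ) * ∑ a, ∑ b, ∑ c, (E a b c : ℤ) := by
  unfold Sv
  have e : ∀ a b c d : V, τ * (pop (cd4 (E a b c) (E a b d) (E a c d) (E b c d)) : ℤ) =
      τ * (E a b c : ℤ) + τ * (E a b d : ℤ) + τ * (E a c d : ℤ) + τ * (E b c d : ℤ) := by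
    intro a b c d
    rw [pop_cd (hE.b _ _ _) (hE.b _ _ _) (hE.b _ _ _) (hE.b _ _ _)]
    push_cast; ring
  simp only [e, sum_add_distrib, ← mul_sum, sum_const, card_univ, nsmul_eq_mul]
  ring

end Pool.Agent.H137Z.T3
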